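import Mathlib

/-!
The Boolean table behind the construction for codegree densities: a symmetric function of the ten
labels (four vertex labels, six pair labels) of a 4-set, with its three finite checks.
-/

namespace Pool.Agent.Helper768Cod

/-- The truth table as a number with 1024 binary digits. -/
def tbl : ℕ := 0x1668f669de69bc3fbe69da5fe6770016d6e9b3cf8ff301146ac06ff67bdebd3db6e9d5af6ca06ff68ff501127dbedb5be76701067dbeb3dd7bded5bb78889ee99ee97888d5bb7bdeb3dd7dbe0106e767db5b7dbe01128ff56ff66ca0d5afb6e9bd3d7bde6ff66ac001148ff3b3cfd6e90016e677da5fbe69bc3fde69f6691668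

/-- The index of a ten-tuple of bits. -/
def idx (a b c d ab ac bc ad bd cd : Bool) : ℕ :=
  ((((((((cd.toNat * 2 + bd.toNat) * 2 + ad.toNat) * 2 + bc.toNat) * 2 + ac.toNat) * 2
    + ab.toNat) * 2 + d.toNat) * 2 + c.toNat) * 2 + b.toNat) * 2 + a.toNat

/-- The table: `a b c d` are the labels of the four vertices, the other six arguments are the
labels of the six pairs. -/
def tab (a b c d ab ac bc ad bd cd : Bool) : Bool :=
  Nat.testBit tbl (idx a b c d ab ac bc ad bd cd)

/-- Universal quantification over one bit. -/
def allB (f : Bool → Bool) : Bool := f false && f true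

theorem allB_spec {f : Bool → Bool} (h : allB f = true) (b : Bool) : f b = true := by
  unfold allB at h
  rw [Bool.and_eq_true] at h
  cases b
  · exact h.1
  · exact h.2

/-- Symmetry under exchanging the first two vertices. -/
def sym1 : Bool :=
  allB fun a => allB fun b => allB fun c => allB fun d => allB fun ab => allB fun ac =>
  allB fun bc => allB fun ad => allB fun bd => allB fun cd =>
    (tab a b c d ab ac bc ad bd cd == tab b a c d ab bc ac bd ad cd)

/-- Symmetry under exchanging the middle two vertices. -/
def sym2 : Bool :=
  allB fun a => allB fun b => allB fun c => allB fun d => allB fun ab => allB fun ac =>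
  allB fun bc => allB fun ad => allB fun bd => allB fun cd =>
    (tab a b c d ab ac bc ad bd cd == tab a c b d ac ab bc ad cd bd)

/-- Symmetry under exchanging the last two vertices. -/
def sym3 : Bool :=
  allB fun a => allB fun b => allB fun c => allB fun d => allB fun ab => allB fun ac =>
  allB fun bc => allB fun ad => allB fun bd => allB fun cd =>
    (tab a b c d ab ac bc ad bd cd == tab a b d c ab ad bd ac bc cd)

theorem sym1_true : sym1 = true := by decide +kernel
theorem sym2_true : sym2 = true := by decide +kernel
theorem sym3_true : sym3 = true := by decide +kernel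

/-- No labelling of five vertices makes all five 4-subsets edges. -/
def free5 : Bool :=
  allB fun a => allB fun b => allB fun c => allB fun d => allB fun ab => allB fun ac =>
  allB fun bc => allB fun ad => allB fun bd => allB fun cd =>
    cond (tab a b c d ab ac bc ad bd cd)
      (allB fun e => allB fun ae => allB fun be => allB fun ce => allB fun de =>
        !(tab a b c e ab ac bc ae be ce && tab a b d e ab ad bd ae be de &&
          tab a c d e ac ad cd ae ce de && tab b c d e bc bd cd be ce de))
      true

theorem free5_true : free5 = true := by decide +kernel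

/-- The number of good ways to choose the label of the last vertex and of its three pairs,
starting from given labels and changing them in all sixteen ways. -/
def cnt (a b c d ab ac bc ad bd cd : Bool) : ℕ :=
  (tab a b c d ab ac bc ad bd cd).toNat + (tab a b c (!d) ab ac bc ad bd cd).toNat +
  (tab a b c d ab ac bc (!ad) bd cd).toNat + (tab a b c (!d) ab ac bc (!ad) bd cd).toNat +
  (tab a b c d ab ac bc ad (!bd) cd).toNat + (tab a b c (!d) ab ac bc ad (!bd) cd).toNat +
  (tab a b c d ab ac bc (!ad) (!bd) cd).toNat + (tab a b c (!d) ab ac bc (!ad) (!bd) cd).toNat +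
  (tab a b c d ab ac bc ad bd (!cd)).toNat + (tab a b c (!d) ab ac bc ad bd (!cd)).toNat +
  (tab a b c d ab ac bc (!ad) bd (!cd)).toNat + (tab a b c (!d) ab ac bc (!ad) bd (!cd)).toNat +
  (tab a b c d ab ac bc ad (!bd) (!cd)).toNat + (tab a b c (!d) ab ac bc ad (!bd) (!cd)).toNat +
  (tab a b c d ab ac bc (!ad) (!bd) (!cd)).toNat +
  (tab a b c (!d) ab ac bc (!ad) (!bd) (!cd)).toNat

/-- The count is at least nine. -/
def cod9 : Bool :=
  allB fun a => allB fun b => allB fun c => allB fun d => allB fun ab => allB fun ac =>
  allB fun bc => allB fun ad => allB fun bd => allB fun cd =>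
    Nat.ble 9 (cnt a b c d ab ac bc ad bd cd)

theorem cod9_true : cod9 = true := by decide +kernel

theorem tab_sym1 (a b c d ab ac bc ad bd cd : Bool) :
    tab a b c d ab ac bc ad bd cd = tab b a c d ab bc ac bd ad cd := by
  have h := sym1_true
  unfold sym1 at h
  have := allB_spec (allB_spec (allB_spec (allB_spec (allB_spec (allB_spec (allB_spec
    (allB_spec (allB_spec (allB_spec h a) b) c) d) ab) ac) bc) ad) bd) cd
  exact eq_of_beq this

theorem tab_sym2 (a b c d ab ac bc ad bd cd : Bool) :
    tab a b c d ab ac bc ad bd cd = tab a c b d ac ab bc ad cd bd := by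
  have h := sym2_true
  unfold sym2 at h
  have := allB_spec (allB_spec (allB_spec (allB_spec (allB_spec (allB_spec (allB_spec
    (allB_spec (allB_spec (allB_spec h a) b) c) d) ab) ac) bc) ad) bd) cd
  exact eq_of_beq this

theorem tab_sym3 (a b c d ab ac bc ad bd cd : Bool) :
    tab a b c d ab ac bc ad bd cd = tab a b d c ab ad bd ac bc cd := by
  have h := sym3_true
  unfold sym3 at h
  have := allB_spec (allB_spec (allB_spec (allB_spec (allB_spec (allB_spec (allB_spec
    (allB_spec (allB_spec (allB_spec h a) b) c) d) ab) ac) bc) ad) bd) cd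
  exact eq_of_beq this

theorem cnt_ge (a b c d ab ac bc ad bd cd : Bool) : 9 ≤ cnt a b c d ab ac bc ad bd cd := by
  have h := cod9_true
  unfold cod9 at h
  have := allB_spec (allB_spec (allB_spec (allB_spec (allB_spec (allB_spec (allB_spec
    (allB_spec (allB_spec (allB_spec h a) b) c) d) ab) ac) bc) ad) bd) cd
  exact Nat.le_of_ble_eq_true this

theorem tab_free (a b c d e ab ac bc ad bd cd ae be ce de : Bool) :
    ¬ (tab a b c d ab ac bc ad bd cd = true ∧ tab a b c e ab ac bc ae be ce = true ∧
      tab a b d e ab ad bd ae be de = true ∧ tab a c d e ac ad cd ae ce de = true ∧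
      tab b c d e bc bd cd be ce de = true) := by
  rintro ⟨h1, h2, h3, h4, h5⟩
  have h := free5_true
  unfold free5 at h
  have h' := allB_spec (allB_spec (allB_spec (allB_spec (allB_spec (allB_spec (allB_spec
    (allB_spec (allB_spec (allB_spec h a) b) c) d) ab) ac) bc) ad) bd) cd
  simp only [h1, cond_true] at h'
  have h'' := allB_spec (allB_spec (allB_spec (allB_spec (allB_spec h' e) ae) be) ce) de
  simp [h2, h3, h4, h5] at h''

end Pool.Agent.Helper768Cod
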