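import Mathlib
import Pool.Agent.helper768_cod.Tab

/-!
Edges of the label hypergraph: a set is an edge when the table holds at the labels of its four
largest vertices and of their pairs, each united with the remaining smaller vertices.
-/

namespace Pool.Agent.Helper768Cod

section

variable {V : Type} [LinearOrder V]

/-- The table evaluated at the labels of the sets obtained by adding to `P` one or two of
`a, b, c, d`. -/
def T4 (ω : Finset V → Bool) (P : Finset V) (a b c d : V) : Bool :=
  tab (ω (insert a P)) (ω (insert b P)) (ω (insert c P)) (ω (insert d P))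
    (ω (insert a (insert b P))) (ω (insert a (insert c P))) (ω (insert b (insert c P)))
    (ω (insert a (insert d P))) (ω (insert b (insert d P))) (ω (insert c (insert d P)))

theorem T4_swap12 (ω : Finset V → Bool) (P : Finset V) (a b c d : V) :
    T4 ω P a b c d = T4 ω P b a c d := by
  unfold T4
  rw [tab_sym1, Finset.insert_comm a b]

theorem T4_swap23 (ω : Finset V → Bool) (P : Finset V) (a b c d : V) :
    T4 ω P a b c d = T4 ω P a c b d := by
  unfold T4
  rw [tab_sym2, Finset.insert_comm b c]

theorem T4_swap34 (ω : Finset V → Bool) (P : Finset V) (a b c d : V) :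
    T4 ω P a b c d = T4 ω P a b d c := by
  unfold T4
  rw [tab_sym3, Finset.insert_comm c d]

/-- The edges of the label hypergraph. -/
def IsEdge (ω : Finset V → Bool) (S : Finset V) : Prop :=
  ∃ (P : Finset V) (a b c d : V), (∀ x ∈ P, x < a) ∧ a < b ∧ b < c ∧ c < d ∧
    S = insert d (insert c (insert b (insert a P))) ∧ T4 ω P a b c d = true

theorem top_unique {A A' : Finset V} {d d' : V} (h : ∀ x ∈ A, x < d) (h' : ∀ x ∈ A', x < d')
    (e : insert d A = insert d' A') : d = d' ∧ A = A' := by
  have h1 : d ∈ insert d' A' := by rw [← e]; exact Finset.mem_insert_self _ _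
  have h2 : d' ∈ insert d A := by rw [e]; exact Finset.mem_insert_self _ _
  have hd : d = d' := by
    rcases Finset.mem_insert.1 h1 with h1 | h1
    · exact h1
    · rcases Finset.mem_insert.1 h2 with h2 | h2
      · exact h2.symm
      · exact absurd (h' _ h1) (not_lt.2 (le_of_lt (h _ h2)))
  subst hd
  refine ⟨rfl, ?_⟩
  have hA : d ∉ A := fun hh => lt_irrefl _ (h _ hh)
  have hA' : d ∉ A' := fun hh => lt_irrefl _ (h' _ hh)
  rw [← Finset.erase_insert hA, e, Finset.erase_insert hA']

theorem exists_top (S : Finset V) (hS : S.Nonempty) :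
    ∃ (d : V) (A : Finset V), S = insert d A ∧ (∀ x ∈ A, x < d) ∧ A.card + 1 = S.card := by
  refine ⟨S.max' hS, S.erase (S.max' hS), ?_, ?_, ?_⟩
  · rw [Finset.insert_erase (S.max'_mem hS)]
  · intro x hx
    rw [Finset.mem_erase] at hx
    exact lt_of_le_of_ne (S.le_max' x hx.2) hx.1
  · rw [Finset.card_erase_of_mem (S.max'_mem hS)]
    have := Finset.card_pos.2 hS
    omega

theorem forall_insert_lt {A : Finset V} {d e : V} (h : ∀ x ∈ A, x < d) (hde : d < e) :
    ∀ x ∈ insert d A, x < e := by
  intro x hx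
  rcases Finset.mem_insert.1 hx with hx | hx
  · rw [hx]; exact hde
  · exact lt_trans (h _ hx) hde

/-- The edge condition at a set presented in increasing order. -/
theorem isEdge_sorted (ω : Finset V → Bool) {P : Finset V} {a b c d : V}
    (hP : ∀ x ∈ P, x < a) (hab : a < b) (hbc : b < c) (hcd : c < d) :
    IsEdge ω (insert d (insert c (insert b (insert a P)))) ↔ T4 ω P a b c d = true := by
  constructor
  · rintro ⟨P', a', b', c', d', hP', hab', hbc', hcd', e, ht⟩
    have ha := forall_insert_lt hP hab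
    have hb := forall_insert_lt ha hbc
    have hc := forall_insert_lt hb hcd
    have ha' := forall_insert_lt hP' hab'
    have hb' := forall_insert_lt ha' hbc'
    have hc' := forall_insert_lt hb' hcd'
    obtain ⟨e1, f1⟩ := top_unique hc hc' e
    obtain ⟨e2, f2⟩ := top_unique hb hb' f1
    obtain ⟨e3, f3⟩ := top_unique ha ha' f2
    obtain ⟨e4, f4⟩ := top_unique hP hP' f3
    rw [e1, e2, e3, e4, f4]
    exact ht
  · intro h
    exact ⟨P, a, b, c, d, hP, hab, hbc, hcd, rfl, h⟩

/-- The edge condition when the last vertex is anywhere above `P`. -/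
theorem isEdge_insert (ω : Finset V → Bool) {P : Finset V} {a b c z : V}
    (hP : ∀ x ∈ P, x < a) (hab : a < b) (hbc : b < c) (hPz : ∀ x ∈ P, x < z)
    (hza : z ≠ a) (hzb : z ≠ b) (hzc : z ≠ c) :
    IsEdge ω (insert z (insert c (insert b (insert a P)))) ↔ T4 ω P a b c z = true := by
  rcases lt_or_gt_of_ne hzc with h | h
  · rcases lt_or_gt_of_ne hzb with h' | h'
    · rcases lt_or_gt_of_ne hza with h'' | h''
      · rw [Finset.insert_comm z c, Finset.insert_comm z b, Finset.insert_comm z a,
          isEdge_sorted ω hPz h'' hab hbc, T4_swap12, T4_swap23, T4_swap34]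
      · rw [Finset.insert_comm z c, Finset.insert_comm z b,
          isEdge_sorted ω hP h'' h' hbc, T4_swap23, T4_swap34]
    · rw [Finset.insert_comm z c, isEdge_sorted ω hP hab h' h, T4_swap34]
  · rw [isEdge_sorted ω hP hab hbc h]

/-- The edge condition at `insert z R`, in a form suited to changing four labels that all belong
to sets containing `z`. -/
theorem isEdge_decomp (R : Finset V) (hR : 3 ≤ R.card) (z : V) (hz : z ∉ R) :
    ∃ (P : Finset V) (a b c d : V), insert z R = insert d (insert c (insert b (insert a P))) ∧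
      a ∉ P ∧ b ∉ P ∧ c ∉ P ∧ d ∉ P ∧ a ≠ b ∧ a ≠ c ∧ b ≠ c ∧ a ≠ d ∧ b ≠ d ∧ c ≠ d ∧
      z ∈ insert d P ∧ ∀ ω : Finset V → Bool, IsEdge ω (insert z R) ↔ T4 ω P a b c d = true := by
  obtain ⟨r3, R2, rfl, h3, c3⟩ := exists_top R (Finset.card_pos.1 (by omega))
  obtain ⟨r2, R1, rfl, h2, c2⟩ := exists_top R2 (Finset.card_pos.1 (by omega))
  obtain ⟨r1, P0, rfl, h1, c1⟩ := exists_top R1 (Finset.card_pos.1 (by omega))
  have h12 : r1 < r2 := h2 _ (Finset.mem_insert_self _ _)
  have h23 : r2 < r3 := h3 _ (Finset.mem_insert_self _ _)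
  have hz3 : z ≠ r3 := by
    intro e; exact hz (by rw [e]; exact Finset.mem_insert_self _ _)
  have hz' : z ∉ insert r2 (insert r1 P0) := fun h => hz (Finset.mem_insert_of_mem h)
  have hz2 : z ≠ r2 := by
    intro e; exact hz' (by rw [e]; exact Finset.mem_insert_self _ _)
  have hz'' : z ∉ insert r1 P0 := fun h => hz' (Finset.mem_insert_of_mem h)
  have hz1 : z ≠ r1 := by
    intro e; exact hz'' (by rw [e]; exact Finset.mem_insert_self _ _)
  have hz0 : z ∉ P0 := fun h => hz'' (Finset.mem_insert_of_mem h)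
  have n1 : r1 ∉ P0 := fun h => lt_irrefl _ (h1 _ h)
  have n2 : r2 ∉ P0 := fun h => lt_irrefl _ (lt_trans (h1 _ h) h12)
  have n3 : r3 ∉ P0 := fun h => lt_irrefl _ (lt_trans (lt_trans (h1 _ h) h12) h23)
  by_cases hall : ∀ x ∈ P0, x < z
  · refine ⟨P0, r1, r2, r3, z, rfl, n1, n2, n3, hz0, ne_of_lt h12,
      ne_of_lt (lt_trans h12 h23), ne_of_lt h23, hz1.symm, hz2.symm, hz3.symm,
      Finset.mem_insert_self _ _, ?_⟩
    intro ω
    exact isEdge_insert ω h1 h12 h23 hall hz1 hz2 hz3
  · push Not at hall
    obtain ⟨y, hy, hzy⟩ := hall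
    obtain ⟨p, P1, rfl, hp, cp⟩ := exists_top P0 ⟨y, hy⟩
    have hyp : y ≤ p := by
      rcases Finset.mem_insert.1 hy with h | h
      · exact le_of_eq h
      · exact le_of_lt (hp _ h)
    have hzp' : z ≠ p := by
      intro e; exact hz0 (by rw [e]; exact Finset.mem_insert_self _ _)
    have hzp : z < p := lt_of_le_of_ne (le_trans hzy hyp) hzp'
    have hp1 : p < r1 := h1 _ (Finset.mem_insert_self _ _)
    have hP : ∀ x ∈ insert z P1, x < p := by
      intro x hx
      rcases Finset.mem_insert.1 hx with h | h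
      · rw [h]; exact hzp
      · exact hp _ h
    have hp2 : p < r2 := lt_trans hp1 h12
    have hp3 : p < r3 := lt_trans hp2 h23
    have e : insert z (insert r3 (insert r2 (insert r1 (insert p P1)))) =
        insert r3 (insert r2 (insert r1 (insert p (insert z P1)))) := by
      rw [Finset.insert_comm z r3, Finset.insert_comm z r2, Finset.insert_comm z r1,
        Finset.insert_comm z p]
    refine ⟨insert z P1, p, r1, r2, r3, e, ?_, ?_, ?_, ?_, ne_of_lt hp1, ne_of_lt hp2,
      ne_of_lt h12, ne_of_lt hp3, ne_of_lt (lt_trans h12 h23), ne_of_lt h23,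
      Finset.mem_insert_of_mem (Finset.mem_insert_self _ _), ?_⟩
    · exact fun h => lt_irrefl _ (hP _ h)
    · exact fun h => lt_irrefl _ (lt_trans (hP _ h) hp1)
    · exact fun h => lt_irrefl _ (lt_trans (hP _ h) hp2)
    · exact fun h => lt_irrefl _ (lt_trans (hP _ h) hp3)
    · intro ω
      rw [e]
      exact isEdge_sorted ω hP hp1 h12 h23

/-- `T4` depends only on the labels of the subsets. -/
theorem T4_congr {ω ω' : Finset V → Bool} {P : Finset V} {a b c d : V}
    (h : ∀ B ⊆ insert d (insert c (insert b (insert a P))), ω B = ω' B) :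
    T4 ω P a b c d = T4 ω' P a b c d := by
  unfold T4
  have s : ∀ x y, x ∈ ({a, b, c, d} : Finset V) → y ∈ ({a, b, c, d} : Finset V) →
      ω (insert x (insert y P)) = ω' (insert x (insert y P)) := by
    intro x y hx hy
    apply h
    intro u hu
    simp only [Finset.mem_insert, Finset.mem_singleton] at hx hy hu ⊢
    rcases hu with hu | hu | hu
    · subst hu; tauto
    · subst hu; tauto
    · tauto
  have s1 : ∀ x, x ∈ ({a, b, c, d} : Finset V) → ω (insert x P) = ω' (insert x P) := by
    intro x hx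
    have := s x x hx hx
    rwa [Finset.insert_idem] at this
  rw [s1 a (by simp), s1 b (by simp), s1 c (by simp), s1 d (by simp), s a b (by simp) (by simp),
    s a c (by simp) (by simp), s b c (by simp) (by simp), s a d (by simp) (by simp),
    s b d (by simp) (by simp), s c d (by simp) (by simp)]

theorem isEdge_congr_imp {ω ω' : Finset V → Bool} {S : Finset V}
    (h : ∀ B ⊆ S, ω B = ω' B) (hS : IsEdge ω S) : IsEdge ω' S := by
  obtain ⟨P, a, b, c, d, h1, h2, h3, h4, rfl, ht⟩ := hS
  refine ⟨P, a, b, c, d, h1, h2, h3, h4, rfl, ?_⟩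
  rw [← ht]
  exact (T4_congr h).symm

theorem isEdge_congr {ω ω' : Finset V → Bool} {S : Finset V}
    (h : ∀ B ⊆ S, ω B = ω' B) : IsEdge ω S ↔ IsEdge ω' S :=
  ⟨isEdge_congr_imp h, isEdge_congr_imp (fun B hB => (h B hB).symm)⟩

/-- No set with at least five elements has all its subsets with one element fewer as edges. -/
theorem not_all_edges (ω : Finset V → Bool) (U : Finset V) (hU : 5 ≤ U.card)
    (h : ∀ v ∈ U, IsEdge ω (U.erase v)) : False := by
  obtain ⟨e, U4, rfl, h4, c4⟩ := exists_top U (Finset.card_pos.1 (by omega))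
  obtain ⟨d, U3, rfl, h3, c3⟩ := exists_top U4 (Finset.card_pos.1 (by omega))
  obtain ⟨c, U2, rfl, h2, c2⟩ := exists_top U3 (Finset.card_pos.1 (by omega))
  obtain ⟨b, U1, rfl, h1, c1⟩ := exists_top U2 (Finset.card_pos.1 (by omega))
  obtain ⟨a, P, rfl, h0, c0⟩ := exists_top U1 (Finset.card_pos.1 (by omega))
  have hab : a < b := h1 _ (Finset.mem_insert_self _ _)
  have hbc : b < c := h2 _ (Finset.mem_insert_self _ _)
  have hcd : c < d := h3 _ (Finset.mem_insert_self _ _)
  have hde : d < e := h4 _ (Finset.mem_insert_self _ _)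
  have hac := lt_trans hab hbc
  have had := lt_trans hac hcd
  have hae := lt_trans had hde
  have hbd := lt_trans hbc hcd
  have hbe := lt_trans hbd hde
  have hce := lt_trans hcd hde
  have hPb : ∀ x ∈ P, x < b := fun x hx => lt_trans (h0 x hx) hab
  have na : a ∉ P := fun h => lt_irrefl _ (h0 _ h)
  have ne' : e ∉ insert d (insert c (insert b (insert a P))) := fun h => lt_irrefl _ (h4 _ h)
  have nd : d ∉ insert c (insert b (insert a P)) := fun h => lt_irrefl _ (h3 _ h)
  have nc : c ∉ insert b (insert a P) := fun h => lt_irrefl _ (h2 _ h)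
  have nb : b ∉ insert a P := fun h => lt_irrefl _ (h1 _ h)
  have he := h e (by simp)
  rw [Finset.erase_insert ne', isEdge_sorted ω h0 hab hbc hcd] at he
  have hd := h d (by simp)
  rw [Finset.erase_insert_of_ne (ne_of_gt hde), Finset.erase_insert nd,
    isEdge_sorted ω h0 hab hbc hce] at hd
  have hc := h c (by simp)
  rw [Finset.erase_insert_of_ne (ne_of_gt hce), Finset.erase_insert_of_ne (ne_of_gt hcd),
    Finset.erase_insert nc, isEdge_sorted ω h0 hab hbd hde] at hc
  have hb := h b (by simp)
  rw [Finset.erase_insert_of_ne (ne_of_gt hbe), Finset.erase_insert_of_ne (ne_of_gt hbd),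
    Finset.erase_insert_of_ne (ne_of_gt hbc),
    Finset.erase_insert nb, isEdge_sorted ω h0 hac hcd hde] at hb
  have ha := h a (by simp)
  rw [Finset.erase_insert_of_ne (ne_of_gt hae), Finset.erase_insert_of_ne (ne_of_gt had),
    Finset.erase_insert_of_ne (ne_of_gt hac), Finset.erase_insert_of_ne (ne_of_gt hab),
    Finset.erase_insert na, isEdge_sorted ω hPb hbc hcd hde] at ha
  exact tab_free _ _ _ _ _ _ _ _ _ _ _ _ _ _ _ ⟨he, hd, hc, hb, ha⟩

theorem isEdge_card {ω : Finset V → Bool} {S : Finset V} (h : IsEdge ω S) : 4 ≤ S.card := by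
  obtain ⟨P, a, b, c, d, hP, hab, hbc, hcd, rfl, ht⟩ := h
  have ha := forall_insert_lt hP hab
  have hb := forall_insert_lt ha hbc
  have hc := forall_insert_lt hb hcd
  rw [Finset.card_insert_of_notMem (fun h => lt_irrefl _ (hc _ h)),
    Finset.card_insert_of_notMem (fun h => lt_irrefl _ (hb _ h)),
    Finset.card_insert_of_notMem (fun h => lt_irrefl _ (ha _ h)),
    Finset.card_insert_of_notMem (fun h => lt_irrefl _ (hP _ h))]
  omega

end

end Pool.Agent.Helper768Cod
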