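import Mathlib
import Pool.Agent.helper768_cod.Comb

/-!
Counting labellings: a generating function bound by changing labels one family at a time.
-/

namespace Pool.Agent.Helper768Cod

open Finset

open Classical in
/-- If the truth of each `g z` can be resampled by sixteen bijections that leave the other `g z'`
unchanged, at least nine of the sixteen giving truth, then the generating function of the number of
true `g z` is at most the corresponding product. -/
theorem gen_bound {Ω ι H : Type} [Fintype Ω] [Fintype H]
    (g : ι → Ω → Prop) (σ : ι → H → Ω → Ω) (x : ℝ) (hx0 : 0 ≤ x) (hx1 : x ≤ 1)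
    (hH : Fintype.card H = 16) (Z : Finset ι) :
    (∀ z ∈ Z, ∀ h, Function.Bijective (σ z h)) →
    (∀ z ∈ Z, ∀ z' ∈ Z, z' ≠ z → ∀ h ω, g z' (σ z h ω) ↔ g z' ω) →
    (∀ z ∈ Z, ∀ ω, 9 ≤ (univ.filter (fun h => g z (σ z h ω))).card) →
    ∑ ω, ∏ z ∈ Z, (if g z ω then x else 1) ≤ (Fintype.card Ω : ℝ) * ((7 + 9 * x) / 16) ^ Z.card := by
  induction Z using Finset.induction_on with
  | empty => intro _ _ _; simp
  | insert z Z hz ih =>
    intro hbij hind h9
    have ih' := ih (fun w hw => hbij w (mem_insert_of_mem hw))
      (fun w hw w' hw' => hind w (mem_insert_of_mem hw) w' (mem_insert_of_mem hw'))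
      (fun w hw => h9 w (mem_insert_of_mem hw))
    have hq : (0 : ℝ) ≤ (7 + 9 * x) / 16 := by linarith
    set W : Ω → ℝ := fun ω => ∏ w ∈ Z, (if g w ω then x else 1) with hW
    have hW0 : ∀ ω, 0 ≤ W ω := by
      intro ω
      apply prod_nonneg
      intro w _
      split_ifs
      · exact hx0
      · exact zero_le_one
    have hWinv : ∀ h ω, W (σ z h ω) = W ω := by
      intro h ω
      apply prod_congr rfl
      intro w hw
      have : w ≠ z := by rintro rfl; exact hz hw
      have := hind z (mem_insert_self _ _) w (mem_insert_of_mem hw) this h ω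
      simp only [this]
    have hstep : ∀ h : H, ∑ ω, (if g z ω then x else 1) * W ω =
        ∑ ω, (if g z (σ z h ω) then x else 1) * W ω := by
      intro h
      have hb := hbij z (mem_insert_self _ _) h
      rw [← hb.sum_comp (fun ω => (if g z ω then x else 1) * W ω)]
      apply sum_congr rfl
      intro ω _
      rw [hWinv]
    have hsum : (16 : ℝ) * ∑ ω, (if g z ω then x else 1) * W ω =
        ∑ ω, (∑ h : H, (if g z (σ z h ω) then x else 1)) * W ω := by
      have : ∑ _h : H, ∑ ω, (if g z ω then x else 1) * W ω =
          ∑ h : H, ∑ ω, (if g z (σ z h ω) then x else 1) * W ω :=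
        sum_congr rfl (fun h _ => hstep h)
      rw [sum_const, card_univ, hH, nsmul_eq_mul] at this
      push_cast at this
      rw [this, sum_comm]
      apply sum_congr rfl
      intro ω _
      rw [sum_mul]
    have hbound : ∀ ω, (∑ h : H, (if g z (σ z h ω) then x else 1)) ≤ 7 + 9 * x := by
      intro ω
      have h9' := h9 z (mem_insert_self _ _) ω
      set m := (univ.filter (fun h => g z (σ z h ω))).card with hm
      have hc : (univ.filter (fun h => ¬ g z (σ z h ω))).card + m = 16 := by
        rw [hm, add_comm, card_filter_add_card_filter_not, card_univ, hH]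
      rw [sum_ite, sum_const, sum_const, nsmul_eq_mul, nsmul_eq_mul, ← hm]
      have hc' : ((univ.filter (fun h => ¬ g z (σ z h ω))).card : ℝ) = 16 - (m : ℝ) := by
        have : ((univ.filter (fun h => ¬ g z (σ z h ω))).card : ℝ) + (m : ℝ) = 16 := by
          exact_mod_cast hc
        linarith
      rw [hc']
      have hm9 : (9 : ℝ) ≤ m := by exact_mod_cast h9'
      nlinarith
    have hprod : ∀ ω, ∏ w ∈ insert z Z, (if g w ω then x else 1) =
        (if g z ω then x else 1) * W ω := by
      intro ω
      rw [prod_insert hz]
    calc ∑ ω, ∏ w ∈ insert z Z, (if g w ω then x else 1)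
        = ∑ ω, (if g z ω then x else 1) * W ω := sum_congr rfl (fun ω _ => hprod ω)
      _ = (1 / 16) * ∑ ω, (∑ h : H, (if g z (σ z h ω) then x else 1)) * W ω := by
          rw [← hsum]; ring
      _ ≤ (1 / 16) * ∑ ω, (7 + 9 * x) * W ω := by
          apply mul_le_mul_of_nonneg_left _ (by norm_num)
          apply sum_le_sum
          intro ω _
          exact mul_le_mul_of_nonneg_right (hbound ω) (hW0 ω)
      _ = ((7 + 9 * x) / 16) * ∑ ω, W ω := by rw [← mul_sum]; ring
      _ ≤ ((7 + 9 * x) / 16) * ((Fintype.card Ω : ℝ) * ((7 + 9 * x) / 16) ^ Z.card) :=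
          mul_le_mul_of_nonneg_left ih' hq
      _ = (Fintype.card Ω : ℝ) * ((7 + 9 * x) / 16) ^ (insert z Z).card := by
          rw [card_insert_of_notMem hz, pow_succ]; ring

section flips

variable {V : Type} [LinearOrder V]

/-- Changing the labels of the four sets that contain `d` among the ten used by `T4`. -/
def mask (P : Finset V) (a b c d : V) (h : Bool × Bool × Bool × Bool) (B : Finset V) : Bool :=
  if B = insert d P then h.1
  else if B = insert a (insert d P) then h.2.1
  else if B = insert b (insert d P) then h.2.2.1
  else if B = insert c (insert d P) then h.2.2.2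
  else false

/-- The relabelling. -/
def flip4 (P : Finset V) (a b c d : V) (h : Bool × Bool × Bool × Bool) (ω : Finset V → Bool) :
    Finset V → Bool :=
  fun B => xor (ω B) (mask P a b c d h B)

theorem flip4_bij (P : Finset V) (a b c d : V) (h : Bool × Bool × Bool × Bool) :
    Function.Bijective (flip4 P a b c d h) := by
  apply Function.Involutive.bijective
  intro ω
  funext B
  simp [flip4]

theorem mask_of_notMem {P : Finset V} {a b c d z : V} (hz : z ∈ insert d P)
    (h : Bool × Bool × Bool × Bool) {B : Finset V} (hB : z ∉ B) : mask P a b c d h B = false := by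
  unfold mask
  rw [if_neg, if_neg, if_neg, if_neg]
  · rintro rfl; exact hB (mem_insert_of_mem hz)
  · rintro rfl; exact hB (mem_insert_of_mem hz)
  · rintro rfl; exact hB (mem_insert_of_mem hz)
  · rintro rfl; exact hB hz

theorem T4_flip {P : Finset V} {a b c d : V} (ha : a ∉ P) (hb : b ∉ P) (hc : c ∉ P) (hd : d ∉ P)
    (hab : a ≠ b) (hac : a ≠ c) (hbc : b ≠ c) (had : a ≠ d) (hbd : b ≠ d) (hcd : c ≠ d)
    (h : Bool × Bool × Bool × Bool) (ω : Finset V → Bool) :
    T4 (flip4 P a b c d h ω) P a b c d =
      tab (ω (insert a P)) (ω (insert b P)) (ω (insert c P)) (xor (ω (insert d P)) h.1)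
        (ω (insert a (insert b P))) (ω (insert a (insert c P))) (ω (insert b (insert c P)))
        (xor (ω (insert a (insert d P))) h.2.1) (xor (ω (insert b (insert d P))) h.2.2.1)
        (xor (ω (insert c (insert d P))) h.2.2.2) := by
  have key : ∀ B : Finset V, d ∉ B → flip4 P a b c d h ω B = ω B := by
    intro B hB
    unfold flip4
    rw [mask_of_notMem (mem_insert_self d P) h hB, Bool.xor_false]
  have m1 : mask P a b c d h (insert d P) = h.1 := by
    unfold mask; rw [if_pos rfl]
  have na : a ∉ insert d P := by simp [had, ha]
  have nb : b ∉ insert d P := by simp [hbd, hb]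
  have nc : c ∉ insert d P := by simp [hcd, hc]
  have ea : insert a (insert d P) ≠ insert d P := by
    intro e; apply na; rw [← e]; exact mem_insert_self _ _
  have eb : insert b (insert d P) ≠ insert d P := by
    intro e; apply nb; rw [← e]; exact mem_insert_self _ _
  have ec : insert c (insert d P) ≠ insert d P := by
    intro e; apply nc; rw [← e]; exact mem_insert_self _ _
  have eba : insert b (insert d P) ≠ insert a (insert d P) := by
    intro e
    have : b ∈ insert a (insert d P) := by rw [← e]; exact mem_insert_self _ _
    rcases mem_insert.1 this with h | h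
    · exact hab h.symm
    · exact nb h
  have eca : insert c (insert d P) ≠ insert a (insert d P) := by
    intro e
    have : c ∈ insert a (insert d P) := by rw [← e]; exact mem_insert_self _ _
    rcases mem_insert.1 this with h | h
    · exact hac h.symm
    · exact nc h
  have ecb : insert c (insert d P) ≠ insert b (insert d P) := by
    intro e
    have : c ∈ insert b (insert d P) := by rw [← e]; exact mem_insert_self _ _
    rcases mem_insert.1 this with h | h
    · exact hbc h.symm
    · exact nc h
  have m2 : mask P a b c d h (insert a (insert d P)) = h.2.1 := by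
    unfold mask; rw [if_neg ea, if_pos rfl]
  have m3 : mask P a b c d h (insert b (insert d P)) = h.2.2.1 := by
    unfold mask; rw [if_neg eb, if_neg eba, if_pos rfl]
  have m4 : mask P a b c d h (insert c (insert d P)) = h.2.2.2 := by
    unfold mask; rw [if_neg ec, if_neg eca, if_neg ecb, if_pos rfl]
  unfold T4
  rw [key (insert a P) (by simp [had.symm, hd]), key (insert b P) (by simp [hbd.symm, hd]),
    key (insert c P) (by simp [hcd.symm, hd]),
    key (insert a (insert b P)) (by simp [had.symm, hbd.symm, hd]),
    key (insert a (insert c P)) (by simp [had.symm, hcd.symm, hd]),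
    key (insert b (insert c P)) (by simp [hbd.symm, hcd.symm, hd])]
  unfold flip4
  rw [m1, m2, m3, m4]

theorem toNat_eq_ite (b : Bool) : (if b = true then 1 else 0) = b.toNat := by
  cases b <;> rfl

theorem T4_flip_count {P : Finset V} {a b c d : V} (ha : a ∉ P) (hb : b ∉ P) (hc : c ∉ P)
    (hd : d ∉ P) (hab : a ≠ b) (hac : a ≠ c) (hbc : b ≠ c) (had : a ≠ d) (hbd : b ≠ d)
    (hcd : c ≠ d) (ω : Finset V → Bool) :
    9 ≤ (univ.filter (fun h => T4 (flip4 P a b c d h ω) P a b c d = true)).card := by
  have e : (univ.filter (fun h => T4 (flip4 P a b c d h ω) P a b c d = true)).card =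
      cnt (ω (insert a P)) (ω (insert b P)) (ω (insert c P)) (ω (insert d P))
        (ω (insert a (insert b P))) (ω (insert a (insert c P))) (ω (insert b (insert c P)))
        (ω (insert a (insert d P))) (ω (insert b (insert d P))) (ω (insert c (insert d P))) := by
    rw [card_filter]
    simp only [T4_flip ha hb hc hd hab hac hbc had hbd hcd, toNat_eq_ite,
      Fintype.sum_prod_type, Fintype.sum_bool, Bool.xor_true, Bool.xor_false]
    unfold cnt
    ring
  rw [e]
  exact cnt_ge _ _ _ _ _ _ _ _ _ _

end flips

end Pool.Agent.Helper768Cod
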