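import Mathlib
import Pool.Agent.helper768_cod.Count

/-!
Existence of labellings all of whose small sets have large codegree.
-/

namespace Pool.Agent.Helper768Cod

open Finset

open Classical in
/-- The number of vertices `z` outside `R` such that `R` together with `z` is an edge. -/
noncomputable def deg {n : ℕ} (ω : Finset (Fin n) → Bool) (R : Finset (Fin n)) : ℕ :=
  (univ.filter (fun z => z ∉ R ∧ IsEdge ω (insert z R))).card

open Classical in
theorem gen_R {n : ℕ} (R : Finset (Fin n)) (hR : 3 ≤ R.card) (x : ℝ) (hx0 : 0 ≤ x) (hx1 : x ≤ 1) :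
    ∑ ω : Finset (Fin n) → Bool, x ^ (deg ω R) ≤
      (Fintype.card (Finset (Fin n) → Bool) : ℝ) * ((7 + 9 * x) / 16) ^ (n - R.card) := by
  choose! P a b c d hd using (fun z (hz : z ∉ R) => isEdge_decomp R hR z hz)
  have hZ : (Rᶜ : Finset (Fin n)).card = n - R.card := by
    rw [card_compl, Fintype.card_fin]
  have hmem : ∀ z, z ∈ (Rᶜ : Finset (Fin n)) → z ∉ R := fun z hz => mem_compl.1 hz
  have hprod : ∀ ω : Finset (Fin n) → Bool,
      ∏ z ∈ (Rᶜ : Finset (Fin n)), (if IsEdge ω (insert z R) then x else 1) = x ^ (deg ω R) := by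
    intro ω
    rw [prod_ite, prod_const, prod_const_one, mul_one]
    congr 1
    unfold deg
    congr 1
    ext z
    simp
  have key := gen_bound (Ω := Finset (Fin n) → Bool) (H := Bool × Bool × Bool × Bool)
    (fun z ω => IsEdge ω (insert z R)) (fun z h ω => flip4 (P z) (a z) (b z) (c z) (d z) h ω)
    x hx0 hx1 (by simp) (Rᶜ : Finset (Fin n)) ?_ ?_ ?_
  · rw [hZ] at key
    refine le_trans (le_of_eq ?_) key
    apply sum_congr rfl
    intro ω _
    exact (hprod ω).symm
  · intro z _ h
    exact flip4_bij _ _ _ _ _ _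
  · intro z hz z' hz' hne h ω
    apply isEdge_congr
    intro B hB
    have hzB : z ∉ B := by
      intro hzB
      rcases mem_insert.1 (hB hzB) with e | e
      · exact hne e.symm
      · exact hmem z hz e
    obtain ⟨-, -, -, -, -, -, -, -, -, -, -, h12, -⟩ := hd z (hmem z hz)
    unfold flip4
    rw [mask_of_notMem h12 h hzB, Bool.xor_false]
  · intro z hz ω
    obtain ⟨-, h1, h2, h3, h4, h5, h6, h7, h8, h9, h10, h11, h12⟩ := hd z (hmem z hz)
    have := T4_flip_count h1 h2 h3 h4 h5 h6 h7 h8 h9 h10 ω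
    refine le_trans this (le_of_eq ?_)
    congr 1
    ext h
    simp only [mem_filter, mem_univ, true_and]
    exact (h12 _).symm

open Classical in
/-- Markov: few labellings have small degree at `R`. -/
theorem bad_R {n : ℕ} (R : Finset (Fin n)) (hR : 3 ≤ R.card) (x : ℝ) (hx0 : 0 < x) (hx1 : x ≤ 1)
    (c : ℝ) :
    ((univ.filter (fun ω : Finset (Fin n) → Bool => (deg ω R : ℝ) < c * n)).card : ℝ) ≤
      (Fintype.card (Finset (Fin n) → Bool) : ℝ) * ((7 + 9 * x) / 16) ^ (n - R.card) *
        Real.exp (c * n * (1 / x - 1)) := by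
  set B := univ.filter (fun ω : Finset (Fin n) → Bool => (deg ω R : ℝ) < c * n) with hB
  have h1 : (B.card : ℝ) * Real.exp (c * n * (1 - 1 / x)) ≤
      ∑ ω : Finset (Fin n) → Bool, x ^ (deg ω R) := by
    calc (B.card : ℝ) * Real.exp (c * n * (1 - 1 / x))
        = ∑ _ω ∈ B, Real.exp (c * n * (1 - 1 / x)) := by rw [sum_const, nsmul_eq_mul]
      _ ≤ ∑ ω ∈ B, x ^ (deg ω R) := by
          apply sum_le_sum
          intro ω hω
          have hlt : (deg ω R : ℝ) < c * n := (mem_filter.1 hω).2
          have hl : 1 - 1 / x ≤ Real.log x := by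
            have := Real.one_sub_inv_le_log_of_pos hx0
            rwa [← one_div] at this
          have hneg : 1 - 1 / x ≤ 0 := by
            have : 1 ≤ 1 / x := by
              rw [le_div_iff₀ hx0]; linarith
            linarith
          calc Real.exp (c * n * (1 - 1 / x)) ≤ Real.exp ((deg ω R : ℝ) * (1 - 1 / x)) := by
                apply Real.exp_le_exp.2
                exact mul_le_mul_of_nonpos_right hlt.le hneg
            _ ≤ Real.exp ((deg ω R : ℝ) * Real.log x) := by
                apply Real.exp_le_exp.2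
                exact mul_le_mul_of_nonneg_left hl (Nat.cast_nonneg _)
            _ = x ^ (deg ω R) := by
                rw [Real.exp_nat_mul, Real.exp_log hx0]
      _ ≤ ∑ ω : Finset (Fin n) → Bool, x ^ (deg ω R) := by
          apply sum_le_sum_of_subset_of_nonneg (filter_subset _ _)
          intro ω _ _
          positivity
  have h2 := le_trans h1 (gen_R R hR x hx0.le hx1)
  have h3 : Real.exp (c * n * (1 / x - 1)) * Real.exp (c * n * (1 - 1 / x)) = 1 := by
    rw [← Real.exp_add]
    have : c * n * (1 / x - 1) + c * n * (1 - 1 / x) = 0 := by ring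
    rw [this, Real.exp_zero]
  calc (B.card : ℝ) = (B.card : ℝ) * Real.exp (c * n * (1 - 1 / x)) *
        Real.exp (c * n * (1 / x - 1)) := by
        rw [mul_assoc, mul_comm (Real.exp (c * n * (1 - 1 / x))), h3, mul_one]
    _ ≤ _ := mul_le_mul_of_nonneg_right h2 (Real.exp_pos _).le

open Classical in
theorem exists_labels {n s : ℕ} (hs : 3 ≤ s) (x : ℝ) (hx0 : 0 < x) (hx1 : x ≤ 1)
    (c : ℝ)
    (hlt : (n : ℝ) ^ s * (((7 + 9 * x) / 16) ^ (n - s) * Real.exp (c * n * (1 / x - 1))) < 1) :
    ∃ ω : Finset (Fin n) → Bool, ∀ R : Finset (Fin n), R.card = s → c * n ≤ deg ω R := by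
  by_contra hcon
  push Not at hcon
  set q : ℝ := ((7 + 9 * x) / 16) ^ (n - s) * Real.exp (c * n * (1 / x - 1)) with hq
  have hq0 : 0 ≤ q := by
    rw [hq]
    have : (0 : ℝ) ≤ (7 + 9 * x) / 16 := by linarith
    positivity
  have hcov : (univ : Finset (Finset (Fin n) → Bool)) ⊆
      (powersetCard s (univ : Finset (Fin n))).biUnion
        (fun R => univ.filter (fun ω : Finset (Fin n) → Bool => (deg ω R : ℝ) < c * n)) := by
    intro ω _
    obtain ⟨R, hR, hlt⟩ := hcon ω
    rw [mem_biUnion]
    refine ⟨R, ?_, ?_⟩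
    · rw [mem_powersetCard]
      exact ⟨subset_univ _, hR⟩
    · rw [mem_filter]
      exact ⟨mem_univ _, hlt⟩
  have h1 : (Fintype.card (Finset (Fin n) → Bool) : ℝ) ≤
      ∑ R ∈ powersetCard s (univ : Finset (Fin n)),
        ((univ.filter (fun ω : Finset (Fin n) → Bool => (deg ω R : ℝ) < c * n)).card : ℝ) := by
    have := le_trans (card_le_card hcov) card_biUnion_le
    rw [card_univ] at this
    exact_mod_cast this
  have h2 : ∑ R ∈ powersetCard s (univ : Finset (Fin n)),
        ((univ.filter (fun ω : Finset (Fin n) → Bool => (deg ω R : ℝ) < c * n)).card : ℝ) ≤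
      ∑ _R ∈ powersetCard s (univ : Finset (Fin n)),
        (Fintype.card (Finset (Fin n) → Bool) : ℝ) * q := by
    apply sum_le_sum
    intro R hR
    have hR' : R.card = s := (mem_powersetCard.1 hR).2
    have := bad_R R (by rw [hR']; exact hs) x hx0 hx1 c
    rw [hR', mul_assoc] at this
    exact this
  have h3 : (Fintype.card (Finset (Fin n) → Bool) : ℝ) ≤
      (n : ℝ) ^ s * ((Fintype.card (Finset (Fin n) → Bool) : ℝ) * q) := by
    refine le_trans h1 (le_trans h2 ?_)
    rw [sum_const, card_powersetCard, card_univ, Fintype.card_fin, nsmul_eq_mul]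
    apply mul_le_mul_of_nonneg_right _ (by positivity)
    exact_mod_cast Nat.choose_le_pow n s
  have hcard : (0 : ℝ) < (Fintype.card (Finset (Fin n) → Bool) : ℝ) := by
    exact_mod_cast Fintype.card_pos
  have h4 : (n : ℝ) ^ s * ((Fintype.card (Finset (Fin n) → Bool) : ℝ) * q) =
      (Fintype.card (Finset (Fin n) → Bool) : ℝ) * ((n : ℝ) ^ s * q) := by ring
  rw [h4] at h3
  nlinarith

/-- The asymptotic form. -/
theorem eventually_labels (s : ℕ) (hs : 3 ≤ s) (c : ℝ) (hc0 : 0 < c) (hc : c < 9 / 16) :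
    ∀ᶠ n : ℕ in Filter.atTop,
      ∃ ω : Finset (Fin n) → Bool, ∀ R : Finset (Fin n), R.card = s → c * n ≤ deg ω R := by
  -- choose `x` between `16 c / 9` and `1`
  set x : ℝ := (16 * c / 9 + 1) / 2 with hx
  have hx0 : 0 < x := by rw [hx]; positivity
  have hx1 : x < 1 := by rw [hx]; linarith
  have hcx : c / x < 9 / 16 := by
    rw [div_lt_iff₀ hx0, hx]; linarith
  set r : ℝ := Real.exp ((1 - x) * (c / x - 9 / 16)) with hr
  have hr0 : 0 < r := Real.exp_pos _
  have hr1 : r < 1 := by
    rw [hr, Real.exp_lt_one_iff]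
    apply mul_neg_of_pos_of_neg <;> linarith
  have hlim := tendsto_pow_const_mul_const_pow_of_abs_lt_one s (r := r)
    (by rw [abs_of_pos hr0]; exact hr1)
  have hQ : (0 : ℝ) < ((7 + 9 * x) / 16) ^ s := by positivity
  have hev := hlim.eventually (gt_mem_nhds hQ)
  filter_upwards [hev, Filter.eventually_ge_atTop s] with n hn hsn
  apply exists_labels hs x hx0 hx1.le c
  have hq : ((7 + 9 * x) / 16) ^ (n - s) * Real.exp (c * n * (1 / x - 1)) *
      ((7 + 9 * x) / 16) ^ s ≤ r ^ n := by
    have e1 : ((7 + 9 * x) / 16) ^ (n - s) * Real.exp (c * n * (1 / x - 1)) *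
      ((7 + 9 * x) / 16) ^ s = ((7 + 9 * x) / 16) ^ n * Real.exp (c * n * (1 / x - 1)) := by
      have : ((7 + 9 * x) / 16) ^ n = ((7 + 9 * x) / 16) ^ (n - s) * ((7 + 9 * x) / 16) ^ s := by
        rw [← pow_add]; congr 1; omega
      rw [this]; ring
    rw [e1]
    have e2 : (7 + 9 * x) / 16 ≤ Real.exp (-(9 / 16) * (1 - x)) := by
      have := Real.add_one_le_exp (-(9 / 16) * (1 - x))
      linarith
    have e3 : ((7 + 9 * x) / 16) ^ n ≤ Real.exp (-(9 / 16) * (1 - x)) ^ n :=
      pow_le_pow_left₀ (by positivity) e2 n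
    calc ((7 + 9 * x) / 16) ^ n * Real.exp (c * n * (1 / x - 1))
        ≤ Real.exp (-(9 / 16) * (1 - x)) ^ n * Real.exp (c * n * (1 / x - 1)) :=
          mul_le_mul_of_nonneg_right e3 (Real.exp_pos _).le
      _ = r ^ n := by
          rw [hr, ← Real.exp_nat_mul, ← Real.exp_nat_mul, ← Real.exp_add]
          congr 1
          have : x ≠ 0 := hx0.ne'
          field_simp
          ring
  have hn' : (n : ℝ) ^ s * (((7 + 9 * x) / 16) ^ (n - s) * Real.exp (c * n * (1 / x - 1))) *
      ((7 + 9 * x) / 16) ^ s < 1 * ((7 + 9 * x) / 16) ^ s := by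
    rw [one_mul]
    refine lt_of_le_of_lt ?_ hn
    rw [mul_assoc]
    exact mul_le_mul_of_nonneg_left hq (by positivity)
  exact lt_of_mul_lt_mul_right hn' hQ.le

end Pool.Agent.Helper768Cod
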